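import Pool.Agent.X179.BA.Main

namespace Pool.Agent.X179.BA

open Filter Topology
open scoped ZeroAtInfty

set_option synthInstance.maxHeartbeats 400000
set_option maxHeartbeats 4000000

noncomputable def inX : Xv →L[ℂ] E := ContinuousLinearMap.inl ℂ Xv V
noncomputable def inV : V →L[ℂ] E := ContinuousLinearMap.inr ℂ Xv V
noncomputable def prX : E →L[ℂ] Xv := ContinuousLinearMap.fst ℂ Xv V
noncomputable def prV : E →L[ℂ] V := ContinuousLinearMap.snd ℂ Xv V

lemma inX_apply (x : Xv) : inX x = ((x, 0) : Xv × V) := rfl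
lemma inV_apply (v : V) : inV v = ((0, v) : Xv × V) := rfl
lemma prX_apply (z : E) : prX z = z.1 := rfl
lemma prV_apply (z : E) : prV z = z.2 := rfl

lemma decomp (w : E) : w = inX (prX w) + inV (prV w) := by
  refine Prod.ext ?_ ?_
  · change w.1 = w.1 + 0
    rw [add_zero]
  · change w.2 = 0 + w.2
    rw [zero_add]

noncomputable def iota : A0 →L[ℂ] (E →L[ℂ] E) :=
  LinearMap.mkContinuous { toFun := fun a => (a : E →L[ℂ] E), map_add' := fun _ _ => rfl,
                           map_smul' := fun _ _ => rfl } 1 (fun a => by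
    rw [one_mul]
    exact le_refl ‖(a : E →L[ℂ] E)‖)

lemma iota_apply (a : A0) : iota a = (a : E →L[ℂ] E) := rfl

lemma lamF_inX (n : ℕ) (g : Gs) (x : Xv) : (lamF n g (inX x)).2 = 0 := by
  refine DFunLike.ext _ _ fun m => ?_
  rw [lamF2]
  split_ifs
  · rfl
  · rfl

lemma K1 (a : A0) (x : Xv) : prV ((a : E →L[ℂ] E) (inX x)) = 0 := by
  have h := dat.ext_clm (Y := V) (prV ∘L ((ContinuousLinearMap.apply ℂ E (inX x)) ∘L iota)) (fun n g => lamF_inX n g x) a
  exact h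

lemma K1' (a : A0) (x : Xv) : (a : E →L[ℂ] E) (inX x) = inX (prX ((a : E →L[ℂ] E) (inX x))) := by
  conv_lhs => rw [decomp ((a : E →L[ℂ] E) (inX x)), K1, map_zero, add_zero]

lemma K2 (a : A0) (w : E) : prV ((a : E →L[ℂ] E) w) = prV ((a : E →L[ℂ] E) (inV (prV w))) := by
  conv_lhs => rw [decomp w, map_add, map_add, K1, zero_add]

abbrev Xb : Type := V →L[ℂ] Xv

noncomputable def Lb : A0 →L[ℂ] Xb →L[ℂ] Xb :=
  LinearMap.mkContinuous₂ (LinearMap.mk₂ ℂ
    (fun (a : A0) (z : Xb) => (prX ∘L ((a : E →L[ℂ] E) ∘L inX)) ∘L z)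
    (fun a b z => by
      refine ContinuousLinearMap.ext fun v => ?_
      change prX ((a : E →L[ℂ] E) (inX (z v)) + (b : E →L[ℂ] E) (inX (z v))) = _
      rw [map_add]
      rfl)
    (fun c a z => by
      refine ContinuousLinearMap.ext fun v => ?_
      change prX (c • (a : E →L[ℂ] E) (inX (z v))) = _
      rw [map_smul]
      rfl)
    (fun a z w => by
      refine ContinuousLinearMap.ext fun v => ?_
      change prX ((a : E →L[ℂ] E) (inX (z v + w v))) = _
      rw [map_add, map_add, map_add]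
      rfl)
    (fun c a z => by
      refine ContinuousLinearMap.ext fun v => ?_
      change prX ((a : E →L[ℂ] E) (inX (c • z v))) = _
      rw [map_smul, map_smul, map_smul]
      rfl)) (‖prX‖ * ‖inX‖) (fun a z => by
    change ‖(prX ∘L ((a : E →L[ℂ] E) ∘L inX)) ∘L z‖ ≤ ‖prX‖ * ‖inX‖ * ‖(a : E →L[ℂ] E)‖ * ‖z‖
    refine (ContinuousLinearMap.opNorm_comp_le _ _).trans ?_
    refine mul_le_mul_of_nonneg_right ?_ (norm_nonneg _)
    refine (ContinuousLinearMap.opNorm_comp_le _ _).trans ?_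
    refine (mul_le_mul_of_nonneg_left (ContinuousLinearMap.opNorm_comp_le _ _) (norm_nonneg _)).trans ?_
    exact le_of_eq (by ring))

noncomputable def Rb : A0 →L[ℂ] Xb →L[ℂ] Xb :=
  LinearMap.mkContinuous₂ (LinearMap.mk₂ ℂ
    (fun (a : A0) (z : Xb) => z ∘L (prV ∘L ((a : E →L[ℂ] E) ∘L inV)))
    (fun a b z => by
      refine ContinuousLinearMap.ext fun v => ?_
      change z (prV ((a : E →L[ℂ] E) (inV v) + (b : E →L[ℂ] E) (inV v))) = _
      rw [map_add, map_add]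
      rfl)
    (fun c a z => by
      refine ContinuousLinearMap.ext fun v => ?_
      change z (prV (c • (a : E →L[ℂ] E) (inV v))) = _
      rw [map_smul, map_smul]
      rfl)
    (fun a z w => rfl)
    (fun c a z => rfl)) (‖prV‖ * ‖inV‖) (fun a z => by
    change ‖z ∘L (prV ∘L ((a : E →L[ℂ] E) ∘L inV))‖ ≤ ‖prV‖ * ‖inV‖ * ‖(a : E →L[ℂ] E)‖ * ‖z‖
    refine (ContinuousLinearMap.opNorm_comp_le _ _).trans ?_
    rw [mul_comm]
    refine mul_le_mul_of_nonneg_right ?_ (norm_nonneg _)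
    refine (ContinuousLinearMap.opNorm_comp_le _ _).trans ?_
    refine (mul_le_mul_of_nonneg_left (ContinuousLinearMap.opNorm_comp_le _ _) (norm_nonneg _)).trans ?_
    exact le_of_eq (by ring))

noncomputable def Db : A0 →L[ℂ] Xb :=
  LinearMap.mkContinuous
    { toFun := fun (a : A0) => prX ∘L ((a : E →L[ℂ] E) ∘L inV)
      map_add' := fun a b => by
        refine ContinuousLinearMap.ext fun v => ?_
        change prX ((a : E →L[ℂ] E) (inV v) + (b : E →L[ℂ] E) (inV v)) = _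
        rw [map_add]
        rfl
      map_smul' := fun c a => by
        refine ContinuousLinearMap.ext fun v => ?_
        change prX (c • (a : E →L[ℂ] E) (inV v)) = _
        rw [map_smul]
        rfl } (‖prX‖ * ‖inV‖) (fun a => by
    change ‖prX ∘L ((a : E →L[ℂ] E) ∘L inV)‖ ≤ ‖prX‖ * ‖inV‖ * ‖(a : E →L[ℂ] E)‖
    refine (ContinuousLinearMap.opNorm_comp_le _ _).trans ?_
    refine (mul_le_mul_of_nonneg_left (ContinuousLinearMap.opNorm_comp_le _ _) (norm_nonneg _)).trans ?_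
    exact le_of_eq (by ring))

lemma Lb_apply (a : A0) (z : Xb) (v : V) : Lb a z v = prX ((a : E →L[ℂ] E) (inX (z v))) := rfl
lemma Rb_apply (a : A0) (z : Xb) (v : V) : Rb a z v = z (prV ((a : E →L[ℂ] E) (inV v))) := rfl
lemma Db_apply (a : A0) (v : V) : Db a v = prX ((a : E →L[ℂ] E) (inV v)) := rfl

lemma mul_app (a b : A0) (w : E) : ((a * b : A0) : E →L[ℂ] E) w =
    (a : E →L[ℂ] E) ((b : E →L[ℂ] E) w) := rfl

lemma Lb_mul (a b : A0) (z : Xb) : Lb (a * b) z = Lb a (Lb b z) := by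
  refine ContinuousLinearMap.ext fun v => ?_
  rw [Lb_apply, Lb_apply, Lb_apply, mul_app, ← K1' b]

lemma Rb_mul (a b : A0) (z : Xb) : Rb (a * b) z = Rb b (Rb a z) := by
  refine ContinuousLinearMap.ext fun v => ?_
  rw [Rb_apply, Rb_apply, Rb_apply, mul_app, K2]

lemma LRb (a b : A0) (z : Xb) : Lb a (Rb b z) = Rb b (Lb a z) := rfl

lemma Db_mul (a b : A0) : Db (a * b) = Lb a (Db b) + Rb b (Db a) := by
  refine ContinuousLinearMap.ext fun v => ?_
  change Db (a * b) v = Lb a (Db b) v + Rb b (Db a) v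
  rw [Lb_apply, Rb_apply, Db_apply, Db_apply, Db_apply, mul_app, ← map_add, ← map_add, ← decomp]

lemma dl_tendsto (n : ℕ) : Tendsto (fun m => if m = n then (1 : ℂ) else 0) cofinite (𝓝 0) := by
  refine tendsto_const_nhds.congr' ?_
  have : ∀ᶠ m in (cofinite : Filter ℕ), m ∉ ({n} : Set ℕ) := (Set.finite_singleton n).eventually_cofinite_notMem
  filter_upwards [this] with m hm
  rw [if_neg (by simpa using hm)]

noncomputable def dl (n : ℕ) : V := mkC0 (I := ℕ) (fun m => if m = n then (1 : ℂ) else 0) (dl_tendsto n)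

lemma dl_apply (n m : ℕ) : dl n m = if m = n then 1 else 0 := rfl

lemma dl_norm (n : ℕ) : ‖dl n‖ ≤ 1 := by
  refine c0_norm_le (I := ℕ) _ zero_le_one fun m => ?_
  change ‖dl n m‖ ≤ 1
  rw [dl_apply]
  split_ifs <;> simp

lemma Lb_lam (n : ℕ) (g : Gs) (z : Xb) (v : V) (s : ℕ) :
    Lb (lamA n g) z v (n, s) = z v (n, (g⁻¹).1 s) := by
  rw [Lb_apply]
  change (lamF n g (inX (z v))).1 (n, s) = _
  rw [lamF1, if_pos rfl]
  have h : (inX (z v)).2 n = 0 := rfl
  rw [h, zero_mul, add_zero]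
  rfl

lemma Rb_lam (n : ℕ) (g : Gs) (z : Xb) : Rb (lamA n g) z (dl n) = z (dl n) := by
  rw [Rb_apply]
  congr 1
  change (lamF n g (inV (dl n))).2 = dl n
  refine DFunLike.ext _ _ fun m => ?_
  rw [lamF2]
  change (if m = n then dl n n else 0) = dl n m
  rw [dl_apply, dl_apply, if_pos rfl]

lemma Db_lam (n : ℕ) (g : Gs) (s : ℕ) :
    Db (lamA n g) (dl n) (n, s) = n * (chi ((g⁻¹).1 s) - chi s) := by
  rw [Db_apply]
  change (lamF n g (inV (dl n))).1 (n, s) = _
  rw [lamF1, if_pos rfl]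
  have h : (inV (dl n)).2 n = 1 := by
    change dl n n = 1
    rw [dl_apply, if_pos rfl]
  have h2 : (inV (dl n)).1 (n, (g⁻¹).1 s) = 0 := rfl
  rw [h, h2, one_mul, zero_add]

lemma sw_chi (a b : ℕ) (h : chi a = chi b) (s : ℕ) : chi (((sw a b)⁻¹ : Gs).1 s) = chi s := by
  rw [sw_inv_apply, Equiv.swap_apply_def]
  split_ifs with h1 h2
  · rw [h1, h]
  · rw [h2, h]
  · rfl

lemma Xv_sub (x y : Xv) (p : ℕ × ℕ) : (x - y) p = x p - y p := rfl
lemma Xv_apply_le (x : Xv) (p : ℕ × ℕ) : ‖x p‖ ≤ ‖x‖ := c0_apply_le (I := ℕ × ℕ) x p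

lemma val_le (T : Xb) (n : ℕ) (p : ℕ × ℕ) : ‖T (dl n) p‖ ≤ ‖T‖ := by
  refine (Xv_apply_le _ _).trans ((T.le_opNorm _).trans ?_)
  have := mul_le_mul_of_nonneg_left (dl_norm n) (norm_nonneg T)
  rwa [mul_one] at this

theorem neg_part (C : ℝ)
    (hC : ∀ (F : Finset A0) (ε : ℝ), 0 < ε → ∃ ξ : Xb,
      (∀ a : A0, ‖Lb a ξ - Rb a ξ‖ ≤ C * ‖a‖) ∧
      ∀ a ∈ F, ‖Db a - (Lb a ξ - Rb a ξ)‖ < ε) : False := by
  obtain ⟨n, hn⟩ := exists_nat_gt (2 * |C| + 4)
  obtain ⟨z, hz1, hz2⟩ := hC {lamA n (sw 0 1)} 1 one_pos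
  have hz2' := hz2 _ (Finset.mem_singleton_self _)
  set y : ℕ → ℂ := fun s => z (dl n) (n, s) with hy
  have hbd : ∀ (a b : ℕ), chi a = chi b → ‖y b - y a‖ ≤ |C| := by
    intro a b hab
    have h1 := hz1 (lamA n (sw a b))
    have h2 : ‖lamA n (sw a b)‖ ≤ 1 := lam0_norm_one n (sw a b) (sw_chi a b hab)
    have h3 := val_le (Lb (lamA n (sw a b)) z - Rb (lamA n (sw a b)) z) n (n, a)
    have h4 : (Lb (lamA n (sw a b)) z - Rb (lamA n (sw a b)) z) (dl n) (n, a) = y b - y a := by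
      change Lb (lamA n (sw a b)) z (dl n) (n, a) - Rb (lamA n (sw a b)) z (dl n) (n, a) = _
      rw [Lb_lam, Rb_lam, sw_inv_apply, Equiv.swap_apply_left]
    rw [h4] at h3
    refine h3.trans (h1.trans ?_)
    calc C * ‖lamA n (sw a b)‖ ≤ |C| * ‖lamA n (sw a b)‖ :=
          mul_le_mul_of_nonneg_right (le_abs_self C) (norm_nonneg _)
      _ ≤ |C| * 1 := mul_le_mul_of_nonneg_left h2 (abs_nonneg C)
      _ = |C| := mul_one _
  have hlim : ∀ f : ℕ → ℕ, Function.Injective f → Tendsto (fun k => y (f k)) atTop (𝓝 0) := by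
    intro f hf
    have hinj : Function.Injective fun k : ℕ => ((n, f k) : ℕ × ℕ) := by
      intro a b h
      simp only [Prod.mk.injEq, true_and] at h
      exact hf h
    have h1 := (c0_tendsto (I := ℕ × ℕ) (z (dl n))).comp hinj.tendsto_cofinite
    rw [Nat.cofinite_eq_atTop] at h1
    exact h1
  have hy0 : ∀ (a : ℕ) (f : ℕ → ℕ), Function.Injective f → (∀ k, chi a = chi (f k)) → ‖y a‖ ≤ |C| := by
    intro a f hf hc
    have h1 : Tendsto (fun k => ‖y (f k) - y a‖) atTop (𝓝 ‖0 - y a‖) :=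
      ((hlim f hf).sub_const (y a)).norm
    have h2 := le_of_tendsto' h1 (fun k => hbd a (f k) (hc k))
    rwa [zero_sub, norm_neg] at h2
  have hA := hy0 0 (fun k => 2 * k + 2) (fun a b h => by simp only at h; omega) (fun k => by
    unfold chi
    rw [if_pos (by decide), if_pos ⟨k + 1, by ring⟩])
  have hB := hy0 1 (fun k => 2 * k + 3) (fun a b h => by simp only at h; omega) (fun k => by
    unfold chi
    rw [if_neg (by decide), if_neg (by rw [Nat.not_even_iff_odd]; exact ⟨k + 1, by ring⟩)])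
  have h3 := val_le (Db (lamA n (sw 0 1)) - (Lb (lamA n (sw 0 1)) z - Rb (lamA n (sw 0 1)) z)) n (n, 0)
  have h4 : (Db (lamA n (sw 0 1)) - (Lb (lamA n (sw 0 1)) z - Rb (lamA n (sw 0 1)) z)) (dl n) (n, 0) =
      -(n : ℂ) - (y 1 - y 0) := by
    change Db (lamA n (sw 0 1)) (dl n) (n, 0) - (Lb (lamA n (sw 0 1)) z (dl n) (n, 0) -
      Rb (lamA n (sw 0 1)) z (dl n) (n, 0)) = _
    rw [Lb_lam, Rb_lam, Db_lam, sw_inv_apply, Equiv.swap_apply_left]
    have e1 : chi 1 = 0 := by unfold chi; rw [if_neg (by decide)]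
    have e2 : chi 0 = 1 := by unfold chi; rw [if_pos (by decide)]
    rw [e1, e2]
    ring
  rw [h4] at h3
  have h5 : (n : ℝ) ≤ ‖-(n : ℂ) - (y 1 - y 0)‖ + (‖y 1‖ + ‖y 0‖) := by
    have e1 : (n : ℝ) = ‖(-(n : ℂ) - (y 1 - y 0)) + (y 1 - y 0)‖ := by
      rw [sub_add_cancel, norm_neg, Complex.norm_natCast]
    have e2 := norm_add_le (-(n : ℂ) - (y 1 - y 0)) (y 1 - y 0)
    have e3 := norm_sub_le (y 1) (y 0)
    linarith
  linarith

end Pool.Agent.X179.BA
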