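import Mathlib

namespace Pool.Agent.X179.BA

/-- Finitely supported permutations of `ℕ`. -/
def Gs : Subgroup (Equiv.Perm ℕ) where
  carrier := {σ | ∃ m : ℕ, ∀ k, m ≤ k → σ k = k}
  one_mem' := ⟨0, fun _ _ => rfl⟩
  mul_mem' := by
    rintro σ τ ⟨m, hm⟩ ⟨m', hm'⟩
    refine ⟨max m m', fun k hk => ?_⟩
    rw [Equiv.Perm.mul_apply, hm' k (le_trans (le_max_right _ _) hk),
      hm k (le_trans (le_max_left _ _) hk)]
  inv_mem' := by
    rintro σ ⟨m, hm⟩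
    refine ⟨m, fun k hk => ?_⟩
    rw [Equiv.Perm.inv_eq_iff_eq, hm k hk]

/-- Those fixing everything from `m` on. -/
def GmSet (m : ℕ) : Set Gs := {g | ∀ k, m ≤ k → (g : Equiv.Perm ℕ) k = k}

lemma GmSet_finite (m : ℕ) : (GmSet m).Finite := by
  classical
  have h1 : Finite {f : Equiv.Perm ℕ // ∀ a, ¬ (a < m) → f a = a} :=
    Finite.of_equiv _ (Equiv.Perm.subtypeEquivSubtypePerm fun a => a < m)
  have : Finite (GmSet m) := by
    refine Finite.of_injective (β := {f : Equiv.Perm ℕ // ∀ a, ¬ (a < m) → f a = a})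
      (fun g => ⟨(g.1 : Equiv.Perm ℕ), fun a ha => g.2 a (not_lt.1 ha)⟩) ?_
    intro g g' h
    have h2 := congrArg Subtype.val h
    exact Subtype.ext (Subtype.ext h2)
  exact Set.toFinite _

noncomputable def GmF (m : ℕ) : Finset Gs := (GmSet_finite m).toFinset

lemma mem_GmF {m : ℕ} {g : Gs} : g ∈ GmF m ↔ ∀ k, m ≤ k → (g : Equiv.Perm ℕ) k = k := by
  unfold GmF
  rw [Set.Finite.mem_toFinset]
  rfl

lemma GmF_mem (g : Gs) : ∃ m0, ∀ m, m0 ≤ m → g ∈ GmF m := by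
  obtain ⟨m0, h⟩ := g.2
  exact ⟨m0, fun m hm => mem_GmF.2 fun k hk => h k (hm.trans hk)⟩

lemma GmF_one (m : ℕ) : (1 : Gs) ∈ GmF m := mem_GmF.2 fun _ _ => rfl

lemma GmF_sum (m : ℕ) (h : Gs) (hh : h ∈ GmF m) (Y : Type) [AddCommMonoid Y] (f : Gs → Y) :
    ∑ g ∈ GmF m, f (h * g) = ∑ g ∈ GmF m, f g := by
  refine Finset.sum_equiv (Equiv.mulLeft h) (fun g => ?_) (fun g _ => rfl)
  have hh' := mem_GmF.1 hh
  rw [mem_GmF, mem_GmF]
  constructor
  · intro hg k hk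
    change ((h : Equiv.Perm ℕ) * (g : Equiv.Perm ℕ)) k = k
    rw [Equiv.Perm.mul_apply, hg k hk, hh' k hk]
  · intro hg k hk
    have h1 : ((h : Equiv.Perm ℕ) * (g : Equiv.Perm ℕ)) k = k := hg k hk
    rw [Equiv.Perm.mul_apply] at h1
    have h2 : (h : Equiv.Perm ℕ) ((g : Equiv.Perm ℕ) k) = (h : Equiv.Perm ℕ) k := by
      rw [h1, hh' k hk]
    exact (h : Equiv.Perm ℕ).injective h2

/-- Transpositions. -/
def sw (a b : ℕ) : Gs := ⟨Equiv.swap a b, ⟨max a b + 1, fun k hk => by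
  have h1 := le_max_left a b
  have h2 := le_max_right a b
  exact Equiv.swap_apply_of_ne_of_ne (by omega) (by omega)⟩⟩

lemma sw_inv_apply (a b s : ℕ) : ((sw a b)⁻¹ : Gs).1 s = Equiv.swap a b s := by
  change (Equiv.swap a b)⁻¹ s = _
  rw [Equiv.swap_inv]

end Pool.Agent.X179.BA
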