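import Pool.Agent.X179.BA.Pos
import Pool.Agent.X179.BA.Grp

namespace Pool.Agent.X179.BA

open Filter Topology
open scoped ZeroAtInfty

set_option synthInstance.maxHeartbeats 400000
set_option maxHeartbeats 4000000

section C0

variable {I : Type} [TopologicalSpace I] [DiscreteTopology I]

noncomputable def mkC0 (f : I → ℂ) (h : Tendsto f cofinite (𝓝 0)) : C₀(I, ℂ) :=
  ⟨⟨f, continuous_of_discreteTopology⟩, by
    rw [cocompact_eq_cofinite]
    exact h⟩

lemma mkC0_apply (f : I → ℂ) (h : Tendsto f cofinite (𝓝 0)) (i : I) : mkC0 f h i = f i := rfl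

lemma c0_tendsto (x : C₀(I, ℂ)) : Tendsto x cofinite (𝓝 0) := by
  rw [← cocompact_eq_cofinite I]
  exact x.zero_at_infty'

lemma c0_apply_le (x : C₀(I, ℂ)) (i : I) : ‖x i‖ ≤ ‖x‖ := by
  rw [← ZeroAtInftyContinuousMap.norm_toBCF_eq_norm]
  exact x.toBCF.norm_coe_le_norm i

lemma c0_norm_le (x : C₀(I, ℂ)) {C : ℝ} (hC : 0 ≤ C) (h : ∀ i, ‖x i‖ ≤ C) : ‖x‖ ≤ C := by
  rw [← ZeroAtInftyContinuousMap.norm_toBCF_eq_norm]
  exact (BoundedContinuousFunction.norm_le hC).2 h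

end C0

def Xv : Type := C₀(ℕ × ℕ, ℂ)
def V : Type := C₀(ℕ, ℂ)
noncomputable instance : NormedAddCommGroup Xv := inferInstanceAs (NormedAddCommGroup C₀(ℕ × ℕ, ℂ))
noncomputable instance : NormedSpace ℂ Xv := inferInstanceAs (NormedSpace ℂ C₀(ℕ × ℕ, ℂ))
instance : CompleteSpace Xv := inferInstanceAs (CompleteSpace C₀(ℕ × ℕ, ℂ))
instance : FunLike Xv (ℕ × ℕ) ℂ := inferInstanceAs (FunLike C₀(ℕ × ℕ, ℂ) (ℕ × ℕ) ℂ)
noncomputable instance : NormedAddCommGroup V := inferInstanceAs (NormedAddCommGroup C₀(ℕ, ℂ))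
noncomputable instance : NormedSpace ℂ V := inferInstanceAs (NormedSpace ℂ C₀(ℕ, ℂ))
instance : CompleteSpace V := inferInstanceAs (CompleteSpace C₀(ℕ, ℂ))
instance : FunLike V ℕ ℂ := inferInstanceAs (FunLike C₀(ℕ, ℂ) ℕ ℂ)
def E : Type := Xv × V
noncomputable instance : NormedAddCommGroup E := inferInstanceAs (NormedAddCommGroup (Xv × V))
noncomputable instance : NormedSpace ℂ E := inferInstanceAs (NormedSpace ℂ (Xv × V))
instance : CompleteSpace E := inferInstanceAs (CompleteSpace (Xv × V))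

/-- Indicator of the even numbers. -/
noncomputable def chi (s : ℕ) : ℂ := if Even s then 1 else 0

lemma chi_diff (s t : ℕ) : ‖chi s - chi t‖ ≤ 1 := by
  unfold chi
  split_ifs <;> simp

/-- First component of the action. -/
noncomputable def act1 (n : ℕ) (g : Gs) (x : Xv) (v : V) (p : ℕ × ℕ) : ℂ :=
  if p.1 = n then x (n, (g⁻¹).1 p.2) + v n * (n * (chi ((g⁻¹).1 p.2) - chi p.2)) else 0

lemma act1_tendsto (n : ℕ) (g : Gs) (x : Xv) (v : V) :
    Tendsto (act1 n g x v) cofinite (𝓝 0) := by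
  have hinj : Function.Injective fun p : ℕ × ℕ => (p.1, (g⁻¹).1 p.2) := by
    rintro ⟨a, b⟩ ⟨c, d⟩ h
    simp only [Prod.mk.injEq] at h
    exact Prod.ext h.1 ((g⁻¹).1.injective h.2)
  have h1 : Tendsto (fun p : ℕ × ℕ => x (p.1, (g⁻¹).1 p.2)) cofinite (𝓝 0) :=
    (c0_tendsto (I := ℕ × ℕ) x).comp hinj.tendsto_cofinite
  obtain ⟨m, hm⟩ := (g⁻¹).2
  have h2 : ∀ᶠ p : ℕ × ℕ in cofinite, p.1 = n → (g⁻¹).1 p.2 = p.2 := by
    have hfin : ((fun k : ℕ => ((n, k) : ℕ × ℕ)) '' (Set.Iio m)).Finite := (Set.finite_Iio m).image _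
    have hfin2 : {p : ℕ × ℕ | p.1 = n ∧ (g⁻¹).1 p.2 ≠ p.2}.Finite := by
      refine hfin.subset ?_
      rintro ⟨a, b⟩ ⟨h3, h4⟩
      simp only at h3 h4
      subst h3
      refine ⟨b, ?_, rfl⟩
      by_contra hb
      exact h4 (hm b (not_lt.1 hb))
    filter_upwards [hfin2.eventually_cofinite_notMem] with p hp
    intro h3
    by_contra h4
    exact hp ⟨h3, h4⟩
  rw [tendsto_zero_iff_norm_tendsto_zero] at h1 ⊢
  refine squeeze_zero' (Eventually.of_forall fun _ => norm_nonneg _) ?_ h1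
  filter_upwards [h2] with p hp
  unfold act1
  split_ifs with h
  · rw [hp h, sub_self, mul_zero, mul_zero, add_zero]
    rw [← h]
  · simp

noncomputable def act2 (n : ℕ) (v : V) (m : ℕ) : ℂ := if m = n then v n else 0

lemma act2_tendsto (n : ℕ) (v : V) : Tendsto (act2 n v) cofinite (𝓝 0) := by
  refine tendsto_const_nhds.congr' ?_
  have : ∀ᶠ m in (cofinite : Filter ℕ), m ∉ ({n} : Set ℕ) := (Set.finite_singleton n).eventually_cofinite_notMem
  filter_upwards [this] with m hm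
  unfold act2
  rw [if_neg (by simpa using hm)]

noncomputable def lamF (n : ℕ) (g : Gs) (z : E) : E :=
  (mkC0 (act1 n g z.1 z.2) (act1_tendsto n g z.1 z.2), mkC0 (act2 n z.2) (act2_tendsto n z.2))

lemma lamF1 (n : ℕ) (g : Gs) (z : E) (p : ℕ × ℕ) : (lamF n g z).1 p =
    if p.1 = n then z.1 (n, (g⁻¹).1 p.2) + z.2 n * (n * (chi ((g⁻¹).1 p.2) - chi p.2)) else 0 := rfl

lemma lamF2 (n : ℕ) (g : Gs) (z : E) (m : ℕ) : (lamF n g z).2 m = if m = n then z.2 n else 0 := rfl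

lemma E_ext {z w : E} (h1 : ∀ p, z.1 p = w.1 p) (h2 : ∀ m, z.2 m = w.2 m) : z = w :=
  Prod.ext (DFunLike.ext _ _ h1) (DFunLike.ext _ _ h2)

lemma E_norm_le (z : E) {C : ℝ} (hC : 0 ≤ C) (h1 : ∀ p, ‖z.1 p‖ ≤ C) (h2 : ∀ m, ‖z.2 m‖ ≤ C) :
    ‖z‖ ≤ C := by
  change max ‖z.1‖ ‖z.2‖ ≤ C
  exact max_le (c0_norm_le _ hC h1) (c0_norm_le _ hC h2)

lemma E1 (z : E) (p : ℕ × ℕ) : ‖z.1 p‖ ≤ ‖z‖ := by
  have h1 : ‖z.1 p‖ ≤ ‖z.1‖ := c0_apply_le (I := ℕ × ℕ) z.1 p
  have h2 : ‖z.1‖ ≤ max ‖z.1‖ ‖z.2‖ := le_max_left _ _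
  exact h1.trans h2
lemma E2 (z : E) (m : ℕ) : ‖z.2 m‖ ≤ ‖z‖ := by
  have h1 : ‖z.2 m‖ ≤ ‖z.2‖ := c0_apply_le (I := ℕ) z.2 m
  have h2 : ‖z.2‖ ≤ max ‖z.1‖ ‖z.2‖ := le_max_right _ _
  exact h1.trans h2

lemma lamF_norm (n : ℕ) (g : Gs) (z : E) : ‖lamF n g z‖ ≤ ((n : ℝ) + 1) * ‖z‖ := by
  have hn : (0 : ℝ) ≤ n := Nat.cast_nonneg n
  have hz := norm_nonneg z
  refine E_norm_le _ (by positivity) (fun p => ?_) (fun m => ?_)
  · rw [lamF1]
    split_ifs
    · refine (norm_add_le _ _).trans ?_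
      have h1 := E1 z (n, (g⁻¹).1 p.2)
      have h2 : ‖z.2 n * (n * (chi ((g⁻¹).1 p.2) - chi p.2))‖ ≤ ‖z‖ * (n * 1) := by
        rw [norm_mul, norm_mul, Complex.norm_natCast]
        exact mul_le_mul (E2 z n) (mul_le_mul_of_nonneg_left (chi_diff _ _) hn) (by positivity) hz
      nlinarith
    · rw [norm_zero]
      positivity
  · rw [lamF2]
    split_ifs
    · have := E2 z n
      nlinarith
    · rw [norm_zero]
      positivity

lemma lamF_norm_one (n : ℕ) (g : Gs) (hg : ∀ s, chi ((g⁻¹).1 s) = chi s) (z : E) :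
    ‖lamF n g z‖ ≤ 1 * ‖z‖ := by
  have hz := norm_nonneg z
  rw [one_mul]
  refine E_norm_le _ hz (fun p => ?_) (fun m => ?_)
  · rw [lamF1]
    split_ifs
    · rw [hg, sub_self, mul_zero, mul_zero, add_zero]
      exact E1 z _
    · rw [norm_zero]
      exact hz
  · rw [lamF2]
    split_ifs
    · exact E2 z n
    · rw [norm_zero]
      exact hz

/-- The operators. -/
noncomputable def lamL (n : ℕ) (g : Gs) : E →ₗ[ℂ] E where
  toFun := lamF n g
  map_add' z w := E_ext (fun p => by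
      change _ = (lamF n g z).1 p + (lamF n g w).1 p
      rw [lamF1, lamF1, lamF1]
      split_ifs
      · change (z.1 _ + w.1 _) + (z.2 n + w.2 n) * _ = _
        ring
      · rw [add_zero]) (fun m => by
      change _ = (lamF n g z).2 m + (lamF n g w).2 m
      rw [lamF2, lamF2, lamF2]
      split_ifs
      · rfl
      · rw [add_zero])
  map_smul' c z := E_ext (fun p => by
      change _ = c * (lamF n g z).1 p
      rw [lamF1, lamF1]
      split_ifs
      · change (c * z.1 _) + (c * z.2 n) * _ = _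
        ring
      · rw [mul_zero]) (fun m => by
      change _ = c * (lamF n g z).2 m
      rw [lamF2, lamF2]
      split_ifs
      · rfl
      · rw [mul_zero])

noncomputable def lam0 (n : ℕ) (g : Gs) : E →L[ℂ] E := (lamL n g).mkContinuous _ (lamF_norm n g)

lemma lam0_apply (n : ℕ) (g : Gs) (z : E) : lam0 n g z = lamF n g z := rfl

lemma lam0_norm (n : ℕ) (g : Gs) : ‖lam0 n g‖ ≤ n + 1 :=
  LinearMap.mkContinuous_norm_le _ (by positivity) _

lemma lam0_norm_one (n : ℕ) (g : Gs) (hg : ∀ s, chi ((g⁻¹).1 s) = chi s) : ‖lam0 n g‖ ≤ 1 :=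
  ContinuousLinearMap.opNorm_le_bound _ zero_le_one (lamF_norm_one n g hg)

lemma lam0_same (n : ℕ) (g h : Gs) : lam0 n g * lam0 n h = lam0 n (g * h) := by
  refine ContinuousLinearMap.ext fun z => ?_
  change lamF n g (lamF n h z) = lamF n (g * h) z
  have hinv : ∀ s, ((g * h)⁻¹).1 s = (h⁻¹).1 ((g⁻¹).1 s) := fun s => by
    rw [mul_inv_rev]
    rfl
  refine E_ext (fun p => ?_) (fun m => ?_)
  · rw [lamF1, lamF1, lamF1, lamF2]
    split_ifs with h1 h2 h3
    · rw [hinv]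
      ring
    all_goals first | rfl | (exact absurd rfl (by assumption)) | skip
  · rw [lamF2, lamF2, lamF2]
    split_ifs with h1 h2
    · rfl
    all_goals first | rfl | (exact absurd rfl (by assumption)) | skip

lemma lam0_ne (n k : ℕ) (g h : Gs) (hnk : n ≠ k) : lam0 n g * lam0 k h = 0 := by
  refine ContinuousLinearMap.ext fun z => ?_
  change lamF n g (lamF k h z) = 0
  refine E_ext (fun p => ?_) (fun m => ?_)
  · rw [lamF1, lamF1, lamF2, if_neg hnk, if_neg hnk]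
    split_ifs
    · simp
      rfl
    · rfl
  · rw [lamF2, lamF2, if_neg hnk]
    split_ifs <;> rfl

lemma sumE1 (F : ℕ → E) (p : ℕ × ℕ) (N : ℕ) :
    (∑ n ∈ Finset.range N, F n).1 p = ∑ n ∈ Finset.range N, (F n).1 p := by
  induction N with
  | zero => rfl
  | succ N ih =>
    rw [Finset.sum_range_succ, Finset.sum_range_succ, ← ih]
    rfl

lemma sumE2 (F : ℕ → E) (p : ℕ) (N : ℕ) :
    (∑ n ∈ Finset.range N, F n).2 p = ∑ n ∈ Finset.range N, (F n).2 p := by
  induction N with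
  | zero => rfl
  | succ N ih =>
    rw [Finset.sum_range_succ, Finset.sum_range_succ, ← ih]
    rfl

lemma e0_norm (N : ℕ) : ‖∑ n ∈ Finset.range N, lam0 n 1‖ ≤ 1 := by
  refine ContinuousLinearMap.opNorm_le_bound _ zero_le_one fun z => ?_
  rw [one_mul]
  have h1 : ∀ p, ((∑ n ∈ Finset.range N, lam0 n 1) z).1 p = if p.1 < N then z.1 p else 0 := by
    intro p
    have e1 : ((∑ n ∈ Finset.range N, lam0 n 1) z) = ∑ n ∈ Finset.range N, lamF n 1 z := by
      simp [lam0_apply]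
    rw [e1]
    have e2 : (∑ n ∈ Finset.range N, lamF n 1 z).1 p = ∑ n ∈ Finset.range N, (lamF n 1 z).1 p :=
      sumE1 (fun n => lamF n 1 z) p N
    rw [e2]
    simp only [lamF1]
    have e3 : ∀ n ∈ Finset.range N, (if p.1 = n then z.1 (n, ((1 : Gs)⁻¹).1 p.2) +
        z.2 n * (n * (chi (((1 : Gs)⁻¹).1 p.2) - chi p.2)) else 0) = if p.1 = n then z.1 p else 0 := by
      intro n _
      split_ifs with h
      · have : ((1 : Gs)⁻¹).1 p.2 = p.2 := by rw [inv_one]; rfl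
        rw [this, sub_self, mul_zero, mul_zero, add_zero, ← h]
      · rfl
    rw [Finset.sum_congr rfl e3, Finset.sum_ite_eq]
    simp
  have h2 : ∀ m, ((∑ n ∈ Finset.range N, lam0 n 1) z).2 m = if m < N then z.2 m else 0 := by
    intro m
    have e1 : ((∑ n ∈ Finset.range N, lam0 n 1) z) = ∑ n ∈ Finset.range N, lamF n 1 z := by
      simp [lam0_apply]
    rw [e1]
    have e2 : (∑ n ∈ Finset.range N, lamF n 1 z).2 m = ∑ n ∈ Finset.range N, (lamF n 1 z).2 m :=
      sumE2 (fun n => lamF n 1 z) m N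
    rw [e2]
    simp only [lamF2]
    have e3 : ∀ n ∈ Finset.range N, (if m = n then z.2 n else 0) = if m = n then z.2 m else 0 := by
      intro n _
      split_ifs with h
      · rw [h]
      · rfl
    rw [Finset.sum_congr rfl e3, Finset.sum_ite_eq]
    simp
  refine E_norm_le _ (norm_nonneg _) (fun p => ?_) (fun m => ?_)
  · rw [h1]
    split_ifs
    · exact E1 z p
    · rw [norm_zero]; exact norm_nonneg _
  · rw [h2]
    split_ifs
    · exact E2 z m
    · rw [norm_zero]; exact norm_nonneg _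

end Pool.Agent.X179.BA
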