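import Pool.Agent.X179.BA.Conc

namespace Pool.Agent.X179.BA

open Filter Topology
open scoped ZeroAtInfty

set_option synthInstance.maxHeartbeats 400000
set_option maxHeartbeats 4000000

noncomputable def SpanL : Submodule ℂ (E →L[ℂ] E) :=
  Submodule.span ℂ (Set.range fun p : ℕ × Gs => lam0 p.1 p.2)

lemma SpanL_mul {a b : E →L[ℂ] E} (ha : a ∈ SpanL) (hb : b ∈ SpanL) : a * b ∈ SpanL := by
  unfold SpanL at ha hb ⊢
  induction ha using Submodule.span_induction with
  | mem x hx =>
    obtain ⟨p, rfl⟩ := hx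
    induction hb using Submodule.span_induction with
    | mem y hy =>
      obtain ⟨q, rfl⟩ := hy
      by_cases h : p.1 = q.1
      · refine Submodule.subset_span ⟨(p.1, p.2 * q.2), ?_⟩
        change lam0 p.1 (p.2 * q.2) = lam0 p.1 p.2 * lam0 q.1 q.2
        rw [← h, lam0_same]
      · change lam0 p.1 p.2 * lam0 q.1 q.2 ∈ _
        rw [lam0_ne _ _ _ _ h]
        exact Submodule.zero_mem _
    | zero => rw [mul_zero]; exact Submodule.zero_mem _
    | add y z _ _ hy hz => rw [mul_add]; exact Submodule.add_mem _ hy hz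
    | smul c y _ hy => rw [mul_smul_comm]; exact Submodule.smul_mem _ _ hy
  | zero => rw [zero_mul]; exact Submodule.zero_mem _
  | add y z _ _ hy hz => rw [add_mul]; exact Submodule.add_mem _ hy hz
  | smul c y _ hy => rw [smul_mul_assoc]; exact Submodule.smul_mem _ _ hy

/-- The algebra. -/
noncomputable def A0 : NonUnitalSubalgebra ℂ (E →L[ℂ] E) where
  carrier := closure (SpanL : Set (E →L[ℂ] E))
  add_mem' {a b} ha hb := by
    have h := SpanL.topologicalClosure.add_mem (x := a) (y := b) ha hb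
    exact h
  zero_mem' := SpanL.topologicalClosure.zero_mem
  smul_mem' c {a} ha := by
    have h := SpanL.topologicalClosure.smul_mem c (x := a) ha
    exact h
  mul_mem' {a b} ha hb :=
    map_mem_closure₂ continuous_mul ha hb fun _ hx _ hy => SpanL_mul hx hy

lemma mem_A0 (a : E →L[ℂ] E) : a ∈ A0 ↔ a ∈ closure (SpanL : Set (E →L[ℂ] E)) := Iff.rfl

noncomputable instance : NormedSpace ℂ A0 where
  norm_smul_le c s := norm_smul_le c (s : E →L[ℂ] E)

instance : CompleteSpace A0 := by
  have h : IsClosed (A0 : Set (E →L[ℂ] E)) := isClosed_closure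
  exact h.completeSpace_coe

lemma lam0_mem (n : ℕ) (g : Gs) : lam0 n g ∈ A0 :=
  subset_closure (Submodule.subset_span ⟨(n, g), rfl⟩)

noncomputable def lamA (n : ℕ) (g : Gs) : A0 := ⟨lam0 n g, lam0_mem n g⟩

lemma lamA_coe (n : ℕ) (g : Gs) : (lamA n g : E →L[ℂ] E) = lam0 n g := rfl

lemma span_lift (b : E →L[ℂ] E) (hb : b ∈ SpanL) :
    ∃ c ∈ Submodule.span ℂ (Set.range fun p : ℕ × Gs => lamA p.1 p.2), (c : E →L[ℂ] E) = b := by
  unfold SpanL at hb
  induction hb using Submodule.span_induction with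
  | mem x hx =>
    obtain ⟨p, rfl⟩ := hx
    exact ⟨lamA p.1 p.2, Submodule.subset_span ⟨p, rfl⟩, rfl⟩
  | zero => exact ⟨0, Submodule.zero_mem _, rfl⟩
  | add y z _ _ hy hz =>
    obtain ⟨c, hc, rfl⟩ := hy
    obtain ⟨c', hc', rfl⟩ := hz
    exact ⟨c + c', Submodule.add_mem _ hc hc', rfl⟩
  | smul r y _ hy =>
    obtain ⟨c, hc, rfl⟩ := hy
    exact ⟨r • c, Submodule.smul_mem _ _ hc, rfl⟩

noncomputable def dat : Data A0 where
  G := Gs
  gG := inferInstance
  Gm := GmF
  mem := GmF_mem
  one_mem := GmF_one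
  sum_mul := fun m h hh Y _ f => GmF_sum m h hh Y f
  lam := lamA
  lam_same := fun n g h => Subtype.ext (lam0_same n g h)
  lam_ne := fun n k g h hnk => Subtype.ext (lam0_ne n k g h hnk)
  lam_norm := fun n g => lam0_norm n g
  e_norm := fun N => by
    have h := e0_norm N
    have h1 : ((∑ n ∈ Finset.range N, lamA n 1 : A0) : E →L[ℂ] E) =
        ∑ n ∈ Finset.range N, lam0 n 1 := by
      induction N with
      | zero => rfl
      | succ N ih =>
        rw [Finset.sum_range_succ, Finset.sum_range_succ, ← ih (e0_norm N)]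
        rfl
    change ‖((∑ n ∈ Finset.range N, lamA n 1 : A0) : E →L[ℂ] E)‖ ≤ 1
    rw [h1]
    exact h
  dense := fun a ε hε => by
    obtain ⟨b, hb, hab⟩ := Metric.mem_closure_iff.1 a.2 ε hε
    obtain ⟨c, hc, rfl⟩ := span_lift b hb
    refine ⟨c, hc, ?_⟩
    rw [dist_eq_norm] at hab
    exact hab

end Pool.Agent.X179.BA
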