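import Mathlib

namespace Pool.Agent.X179.BA

open Filter Topology

set_option synthInstance.maxHeartbeats 400000
set_option maxHeartbeats 4000000

variable {A : Type} [NonUnitalNormedRing A] [NormedSpace ℂ A] [IsScalarTower ℂ A A]
  [SMulCommClass ℂ A A]

/-- Weak-star limits of bounded sequences of functionals along an ultrafilter. -/
lemma wlim {X : Type} [NormedAddCommGroup X] [NormedSpace ℂ X] (η : ℕ → X →L[ℂ] ℂ) (K : ℝ)
    (hK : ∀ m, ‖η m‖ ≤ K) : ∃ ζ : X →L[ℂ] ℂ,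
      ∀ x, Tendsto (fun m => η m x) (hyperfilter ℕ : Filter ℕ) (𝓝 (ζ x)) := by
  have h1 : ∀ x, ∃ l : ℂ, ‖l‖ ≤ K * ‖x‖ ∧
      Tendsto (fun m => η m x) (hyperfilter ℕ : Filter ℕ) (𝓝 l) := by
    intro x
    have hc : IsCompact (Metric.closedBall (0 : ℂ) (K * ‖x‖)) := isCompact_closedBall _ _
    have hm : ∀ m, η m x ∈ Metric.closedBall (0 : ℂ) (K * ‖x‖) := fun m => by
      rw [mem_closedBall_zero_iff]
      exact ((η m).le_opNorm x).trans (mul_le_mul_of_nonneg_right (hK m) (norm_nonneg _))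
    obtain ⟨l, hl, hle⟩ := hc.ultrafilter_le_nhds ((hyperfilter ℕ).map (fun m => η m x)) (by
      rw [Ultrafilter.coe_map, le_principal_iff, mem_map]
      exact Filter.univ_mem' hm)
    exact ⟨l, by simpa using hl, hle⟩
  choose l hl hlim using h1
  refine ⟨LinearMap.mkContinuous
    { toFun := l
      map_add' := fun x y => by
        refine tendsto_nhds_unique (hlim (x + y)) (((hlim x).add (hlim y)).congr fun m => ?_)
        rw [map_add]
      map_smul' := fun c x => by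
        refine tendsto_nhds_unique (hlim (c • x)) (((hlim x).const_mul c).congr fun m => ?_)
        rw [map_smul, smul_eq_mul] } K hl, fun x => hlim x⟩

/-- The abstract data. -/
structure Data (A : Type) [NonUnitalNormedRing A] [NormedSpace ℂ A] where
  G : Type
  gG : Group G
  Gm : ℕ → Finset G
  mem : ∀ g, ∃ m0, ∀ m, m0 ≤ m → g ∈ Gm m
  one_mem : ∀ m, (1 : G) ∈ Gm m
  sum_mul : ∀ m, ∀ h ∈ Gm m, ∀ (Y : Type) [AddCommMonoid Y] (f : G → Y),
    ∑ g ∈ Gm m, f (h * g) = ∑ g ∈ Gm m, f g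
  lam : ℕ → G → A
  lam_same : ∀ n g h, lam n g * lam n h = lam n (g * h)
  lam_ne : ∀ n k g h, n ≠ k → lam n g * lam k h = 0
  lam_norm : ∀ n g, ‖lam n g‖ ≤ n + 1
  e_norm : ∀ N, ‖∑ n ∈ Finset.range N, lam n 1‖ ≤ 1
  dense : ∀ (a : A) (ε : ℝ), 0 < ε →
    ∃ b ∈ Submodule.span ℂ (Set.range fun p : ℕ × G => lam p.1 p.2), ‖a - b‖ < ε

section

variable (d : Data A)

attribute [instance] Data.gG

/-- The truncations of the identity. -/
noncomputable def Data.e (N : ℕ) : A := ∑ n ∈ Finset.range N, d.lam n 1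

lemma Data.ext_clm {Y : Type} [NormedAddCommGroup Y] [NormedSpace ℂ Y] (F : A →L[ℂ] Y)
    (h : ∀ n g, F (d.lam n g) = 0) (a : A) : F a = 0 := by
  have h1 : ∀ b ∈ Submodule.span ℂ (Set.range fun p : ℕ × d.G => d.lam p.1 p.2), F b = 0 := by
    intro b hb
    have : Submodule.span ℂ (Set.range fun p : ℕ × d.G => d.lam p.1 p.2) ≤
        LinearMap.ker (F : A →ₗ[ℂ] Y) := by
      rw [Submodule.span_le]
      rintro _ ⟨p, rfl⟩
      exact h p.1 p.2
    exact this hb
  by_contra hne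
  have hpos : 0 < ‖F a‖ := norm_pos_iff.2 hne
  obtain ⟨b, hb, hab⟩ := d.dense a (‖F a‖ / (‖F‖ + 1)) (by positivity)
  have h2 : F a = F (a - b) := by rw [map_sub, h1 b hb, sub_zero]
  have h3 := F.le_opNorm (a - b)
  rw [← h2] at h3
  have h4 : ‖F‖ * ‖a - b‖ ≤ ‖F‖ * (‖F a‖ / (‖F‖ + 1)) :=
    mul_le_mul_of_nonneg_left hab.le (norm_nonneg _)
  have h5 : ‖F‖ * (‖F a‖ / (‖F‖ + 1)) < ‖F a‖ := by
    rw [mul_div_assoc', div_lt_iff₀ (by positivity)]
    nlinarith [norm_nonneg F]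
  linarith

lemma Data.e_lam (N k : ℕ) (h : d.G) :
    d.e N * d.lam k h = if k < N then d.lam k h else 0 := by
  unfold Data.e
  rw [Finset.sum_mul]
  split_ifs with hk
  · rw [Finset.sum_eq_single k]
    · rw [d.lam_same, one_mul]
    · intro n _ hn
      exact d.lam_ne n k _ _ hn
    · intro hn
      exact absurd (Finset.mem_range.2 hk) hn
  · refine Finset.sum_eq_zero fun n hn => d.lam_ne n k _ _ ?_
    rw [Finset.mem_range] at hn
    omega

lemma Data.lam_e (N k : ℕ) (h : d.G) :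
    d.lam k h * d.e N = if k < N then d.lam k h else 0 := by
  unfold Data.e
  rw [Finset.mul_sum]
  split_ifs with hk
  · rw [Finset.sum_eq_single k]
    · rw [d.lam_same, mul_one]
    · intro n _ hn
      exact d.lam_ne k n _ _ (Ne.symm hn)
    · intro hn
      exact absurd (Finset.mem_range.2 hk) hn
  · refine Finset.sum_eq_zero fun n hn => d.lam_ne k n _ _ ?_
    rw [Finset.mem_range] at hn
    omega

lemma Data.central (N : ℕ) (a : A) : d.e N * a = a * d.e N := by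
  have := d.ext_clm (ContinuousLinearMap.mul ℂ A (d.e N) - (ContinuousLinearMap.mul ℂ A).flip (d.e N))
    (fun n g => by
      rw [sub_apply, ContinuousLinearMap.flip_apply, ContinuousLinearMap.mul_apply',
        ContinuousLinearMap.mul_apply', d.e_lam, d.lam_e, sub_self]) a
  rw [sub_apply, ContinuousLinearMap.flip_apply, ContinuousLinearMap.mul_apply',
        ContinuousLinearMap.mul_apply'] at this
  exact sub_eq_zero.1 this

lemma Data.e_idem (N : ℕ) : d.e N * d.e N = d.e N := by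
  have h0 : d.e N * d.e N = ∑ n ∈ Finset.range N, d.e N * d.lam n 1 := by
    conv_lhs => enter [2]; unfold Data.e
    rw [Finset.mul_sum]
  rw [h0]
  conv_rhs => unfold Data.e
  refine Finset.sum_congr rfl fun n hn => ?_
  have := d.e_lam N n 1
  rw [if_pos (Finset.mem_range.1 hn)] at this
  exact this

lemma Data.e_norm' (N : ℕ) : ‖d.e N‖ ≤ 1 := d.e_norm N

lemma Data.e_tendsto (a : A) : Tendsto (fun N => ‖a - d.e N * a‖) atTop (𝓝 0) := by
  have hspan : ∀ b ∈ Submodule.span ℂ (Set.range fun p : ℕ × d.G => d.lam p.1 p.2),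
      ∀ᶠ N in atTop, d.e N * b = b := by
    intro b hb
    induction hb using Submodule.span_induction with
    | mem x hx =>
      obtain ⟨p, rfl⟩ := hx
      filter_upwards [eventually_gt_atTop p.1] with N hN
      change d.e N * d.lam p.1 p.2 = d.lam p.1 p.2
      rw [d.e_lam, if_pos hN]
    | zero => simp
    | add x y _ _ hx hy =>
      filter_upwards [hx, hy] with N h1 h2
      rw [mul_add, h1, h2]
    | smul c x _ hx =>
      filter_upwards [hx] with N h1
      rw [mul_smul_comm, h1]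
  rw [Metric.tendsto_nhds]
  intro ε hε
  obtain ⟨b, hb, hab⟩ := d.dense a (ε / 2) (by positivity)
  filter_upwards [hspan b hb] with N hN
  rw [Real.dist_eq, sub_zero, abs_of_nonneg (norm_nonneg _)]
  have h1 : a - d.e N * a = (a - b) - d.e N * (a - b) := by
    rw [mul_sub, hN]
    abel
  rw [h1]
  have h2 : ‖d.e N * (a - b)‖ ≤ 1 * ‖a - b‖ :=
    (norm_mul_le _ _).trans (mul_le_mul_of_nonneg_right (d.e_norm' N) (norm_nonneg _))
  have h3 := norm_sub_le (a - b) (d.e N * (a - b))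
  linarith

variable {X : Type} [NormedAddCommGroup X] [NormedSpace ℂ X]

lemma Data.core (L R : A →L[ℂ] X →L[ℂ] X)
    (hR : ∀ (a b : A) (x : X), R (a * b) x = R b (R a x))
    (hLR : ∀ (a b : A) (x : X), L a (R b x) = R b (L a x))
    (D : A →L[ℂ] (X →L[ℂ] ℂ))
    (hD : ∀ (a b : A) (x : X), D (a * b) x = D b (R a x) + D a (L b x)) (n : ℕ) :
    ∃ ζ : X →L[ℂ] ℂ, ∀ (a : A) (x : X), ζ (R a x) - ζ (L a x) = D a (R (d.lam n 1) x) := by
  have hD0 : 0 ≤ ‖D‖ := D.opNorm_nonneg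
  have hR0 : 0 ≤ ‖R‖ := R.opNorm_nonneg
  let η : ℕ → X →L[ℂ] ℂ := fun m =>
    ((((d.Gm m).card : ℂ))⁻¹) • ∑ g ∈ d.Gm m, (D (d.lam n g⁻¹)) ∘L (R (d.lam n g))
  have hηx : ∀ m x, η m x = (((d.Gm m).card : ℂ))⁻¹ * ∑ g ∈ d.Gm m, D (d.lam n g⁻¹) (R (d.lam n g) x) := by
    intro m x
    simp only [η, smul_apply, smul_eq_mul]
    congr 1
    simp
  have hcard : ∀ m, ((d.Gm m).card : ℂ) ≠ 0 := fun m => by
    have : 0 < (d.Gm m).card := Finset.card_pos.2 ⟨1, d.one_mem m⟩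
    exact_mod_cast this.ne'
  have hηn : ∀ m, ‖η m‖ ≤ ‖D‖ * (n + 1) * (‖R‖ * (n + 1)) := by
    intro m
    refine ContinuousLinearMap.opNorm_le_bound _ (by positivity) fun x => ?_
    rw [hηx, norm_mul, norm_inv, Complex.norm_natCast]
    have h1 : ‖∑ g ∈ d.Gm m, D (d.lam n g⁻¹) (R (d.lam n g) x)‖ ≤
        (d.Gm m).card * (‖D‖ * (n + 1) * (‖R‖ * (n + 1)) * ‖x‖) := by
      refine (norm_sum_le _ _).trans ?_
      rw [← nsmul_eq_mul]
      refine Finset.sum_le_card_nsmul _ _ _ fun g _ => ?_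
      refine (D.le_opNorm₂ _ _).trans ?_
      have h2 : ‖R (d.lam n g) x‖ ≤ ‖R‖ * (n + 1) * ‖x‖ :=
        (R.le_opNorm₂ _ _).trans (mul_le_mul_of_nonneg_right
          (mul_le_mul_of_nonneg_left (d.lam_norm n g) hR0) (norm_nonneg _))
      have h3 : ‖D‖ * ‖d.lam n g⁻¹‖ ≤ ‖D‖ * (n + 1) :=
        mul_le_mul_of_nonneg_left (d.lam_norm n _) hD0
      refine (mul_le_mul h3 h2 (norm_nonneg _) (by positivity)).trans (le_of_eq (by ring))
    have hc : (0 : ℝ) < (d.Gm m).card := by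
      exact_mod_cast Finset.card_pos.2 ⟨1, d.one_mem m⟩
    rw [inv_mul_le_iff₀ hc]
    exact h1
  obtain ⟨ζ, hζ⟩ := wlim η _ hηn
  refine ⟨ζ, fun a x => ?_⟩
  have hexact : ∀ (k : ℕ) (h : d.G) (x : X) (m : ℕ), h ∈ d.Gm m →
      η m (R (d.lam k h) x) - η m (L (d.lam k h) x) = D (d.lam k h) (R (d.lam n 1) x) := by
    intro k h x m hm
    rw [hηx, hηx, ← mul_sub, inv_mul_eq_iff_eq_mul₀ (hcard m)]
    have hRx : ∀ g, D (d.lam k h) (R (d.lam n 1) x) =
        D (d.lam k h) (R (d.lam n g⁻¹) (R (d.lam n g) x)) := by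
      intro g
      rw [← hR, d.lam_same, mul_inv_cancel]
    by_cases hnk : n = k
    · subst hnk
      have e1 : ∑ g ∈ d.Gm m, D (d.lam n g⁻¹) (R (d.lam n g) (R (d.lam n h) x)) =
          ∑ g ∈ d.Gm m, D (d.lam n (g⁻¹ * h)) (R (d.lam n g) x) := by
        rw [← d.sum_mul m h hm _ (fun g => D (d.lam n (g⁻¹ * h)) (R (d.lam n g) x))]
        refine Finset.sum_congr rfl fun g _ => ?_
        rw [← hR, d.lam_same, mul_inv_rev, inv_mul_cancel_right]
      rw [e1, ← Finset.sum_sub_distrib, ← nsmul_eq_mul]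
      rw [Finset.sum_congr rfl (g := fun _ => D (d.lam n h) (R (d.lam n 1) x)) (fun g _ => ?_)]
      · rw [Finset.sum_const]
      · rw [← d.lam_same, hD, hRx g, hLR]
        ring
    · have e1 : ∑ g ∈ d.Gm m, D (d.lam n g⁻¹) (R (d.lam n g) (R (d.lam k h) x)) = 0 := by
        refine Finset.sum_eq_zero fun g _ => ?_
        rw [← hR, d.lam_ne k n _ _ (Ne.symm hnk)]
        simp
      rw [e1, zero_sub, ← Finset.sum_neg_distrib, ← nsmul_eq_mul]
      rw [Finset.sum_congr rfl (g := fun _ => D (d.lam k h) (R (d.lam n 1) x)) (fun g _ => ?_)]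
      · rw [Finset.sum_const]
      · have h0 := hD (d.lam n g⁻¹) (d.lam k h) (R (d.lam n g) x)
        rw [d.lam_ne n k _ _ hnk, map_zero] at h0
        rw [hRx g, ← hLR]
        have h1 : (0 : X →L[ℂ] ℂ) (R (d.lam n g) x) = 0 := rfl
        rw [h1] at h0
        linear_combination h0
  have hlam : ∀ (k : ℕ) (h : d.G) (x : X),
      ζ (R (d.lam k h) x) - ζ (L (d.lam k h) x) = D (d.lam k h) (R (d.lam n 1) x) := by
    intro k h x
    refine tendsto_nhds_unique ((hζ _).sub (hζ _)) ?_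
    obtain ⟨m0, hm0⟩ := d.mem h
    refine tendsto_const_nhds.congr' ?_
    have h1 : ∀ᶠ m in (atTop : Filter ℕ),
        D (d.lam k h) (R (d.lam n 1) x) = η m (R (d.lam k h) x) - η m (L (d.lam k h) x) := by
      filter_upwards [eventually_ge_atTop m0] with m hm
      exact (hexact k h x m (hm0 m hm)).symm
    have h2 : (hyperfilter ℕ : Filter ℕ) ≤ atTop := by
      rw [← Nat.cofinite_eq_atTop]
      exact hyperfilter_le_cofinite
    exact h2 h1
  have h3 := d.ext_clm (Y := ℂ) (ζ ∘L (R.flip x) - ζ ∘L (L.flip x) - D.flip (R (d.lam n 1) x))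
    (fun k h => by
      simp only [sub_apply, ContinuousLinearMap.comp_apply, ContinuousLinearMap.flip_apply]
      rw [hlam k h x, sub_self]) a
  simp only [sub_apply, ContinuousLinearMap.comp_apply, ContinuousLinearMap.flip_apply] at h3
  exact sub_eq_zero.1 h3

theorem Data.pos (d : Data A) (L R : A →L[ℂ] X →L[ℂ] X)
    (hL : ∀ (a b : A) (x : X), L (a * b) x = L a (L b x))
    (hR : ∀ (a b : A) (x : X), R (a * b) x = R b (R a x))
    (hLR : ∀ (a b : A) (x : X), L a (R b x) = R b (L a x))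
    (D : A →L[ℂ] (X →L[ℂ] ℂ))
    (hD' : ∀ a b : A, D (a * b) = (D b).comp (R a) + (D a).comp (L b)) :
    ∃ C : ℝ, ∀ (F : Finset A) (ε : ℝ), 0 < ε → ∃ f : X →L[ℂ] ℂ,
      (∀ a : A, ‖f.comp (R a) - f.comp (L a)‖ ≤ C * ‖a‖) ∧
      ∀ a ∈ F, ‖D a - (f.comp (R a) - f.comp (L a))‖ < ε := by
  have hD : ∀ (a b : A) (x : X), D (a * b) x = D b (R a x) + D a (L b x) := by
    intro a b x
    rw [hD' a b]
    rfl
  have hD0 : 0 ≤ ‖D‖ := D.opNorm_nonneg
  have hR0 : 0 ≤ ‖R‖ := R.opNorm_nonneg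
  have hL0 : 0 ≤ ‖L‖ := L.opNorm_nonneg
  have hcore := fun n => Data.core d L R hR hLR D hD n
  choose ζ hζ using hcore
  have key : ∀ N (a : A), ((∑ n ∈ Finset.range N, ζ n) - (D (d.e N)).comp (L (d.e N))).comp (R a) -
      ((∑ n ∈ Finset.range N, ζ n) - (D (d.e N)).comp (L (d.e N))).comp (L a) =
      D (d.e N * a) + (D (a - d.e N * a)).comp (R (d.e N)) + (D (a - d.e N * a)).comp (L (d.e N)) := by
    intro N a
    set e := d.e N with he
    have hid : e * e = e := d.e_idem N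
    have hce : e * a = a * e := d.central N a
    ext x
    have s1 : (∑ n ∈ Finset.range N, ζ n) (R a x) - (∑ n ∈ Finset.range N, ζ n) (L a x) =
        D a (R e x) := by
      have h1 : ∀ y, (∑ n ∈ Finset.range N, ζ n) y = ∑ n ∈ Finset.range N, ζ n y := fun y => by
        simp
      rw [h1, h1, ← Finset.sum_sub_distrib]
      rw [Finset.sum_congr rfl fun n _ => hζ n a x]
      rw [he]
      unfold Data.e
      rw [map_sum]
      have h2 : (∑ n ∈ Finset.range N, R (d.lam n 1)) x = ∑ n ∈ Finset.range N, R (d.lam n 1) x := by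
        simp
      rw [h2, map_sum]
    have s2 : D (e * a) (R e x) = D a (R e x) + D e (L a (R e x)) := by
      rw [hD, ← hR, hid]
    have s3 : D (e * a) (L e x) = D e (R a (L e x)) + D a (L e x) := by
      rw [hce, hD, ← hL, hid]
    have s4 : D (e * a) x = D a (R e x) + D e (L a x) := hD e a x
    have s5 : D e (L a x) = D e (R e (L a x)) + D e (L e (L a x)) := by
      have := hD e e (L a x)
      rwa [hid] at this
    simp only [sub_apply, add_apply, ContinuousLinearMap.comp_apply, map_sub]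
    rw [s2, s3, s4]
    have s6 : R e (L a x) = L a (R e x) := (hLR a e x).symm
    have s7 : L e (R a x) = R a (L e x) := hLR e a x
    rw [s6] at s5
    rw [s7]
    linear_combination s1 - s5
  have small : ∀ N (a : A), ‖(D (a - d.e N * a)).comp (R (d.e N))‖ ≤ ‖D‖ * ‖R‖ * ‖a - d.e N * a‖ ∧
      ‖(D (a - d.e N * a)).comp (L (d.e N))‖ ≤ ‖D‖ * ‖L‖ * ‖a - d.e N * a‖ := by
    intro N a
    have hDn : ‖D (a - d.e N * a)‖ ≤ ‖D‖ * ‖a - d.e N * a‖ := D.le_opNorm _
    have hRn : ‖R (d.e N)‖ ≤ ‖R‖ * 1 :=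
      (R.le_opNorm _).trans (mul_le_mul_of_nonneg_left (d.e_norm' N) hR0)
    have hLn : ‖L (d.e N)‖ ≤ ‖L‖ * 1 :=
      (L.le_opNorm _).trans (mul_le_mul_of_nonneg_left (d.e_norm' N) hL0)
    constructor
    · refine (ContinuousLinearMap.opNorm_comp_le _ _).trans ?_
      refine (mul_le_mul hDn hRn (norm_nonneg _) (by positivity)).trans (le_of_eq (by ring))
    · refine (ContinuousLinearMap.opNorm_comp_le _ _).trans ?_
      refine (mul_le_mul hDn hLn (norm_nonneg _) (by positivity)).trans (le_of_eq (by ring))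
  have hea : ∀ N (a : A), ‖d.e N * a‖ ≤ ‖a‖ := fun N a => by
    have := (norm_mul_le (d.e N) a).trans (mul_le_mul_of_nonneg_right (d.e_norm' N) (norm_nonneg a))
    rwa [one_mul] at this
  refine ⟨‖D‖ * (1 + 2 * ‖R‖ + 2 * ‖L‖), fun F ε hε => ?_⟩
  have hev : ∀ᶠ N in (atTop : Filter ℕ), ∀ a ∈ F,
      ‖a - d.e N * a‖ < ε / (‖D‖ * (1 + ‖R‖ + ‖L‖) + 1) := by
    rw [Finset.eventually_all F]
    intro a _
    exact (d.e_tendsto a).eventually (gt_mem_nhds (by positivity))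
  obtain ⟨N, hN⟩ := hev.exists
  refine ⟨(∑ n ∈ Finset.range N, ζ n) - (D (d.e N)).comp (L (d.e N)), fun a => ?_, fun a ha => ?_⟩
  · rw [key]
    obtain ⟨h1, h2⟩ := small N a
    have h3 : ‖D (d.e N * a)‖ ≤ ‖D‖ * ‖a‖ :=
      (D.le_opNorm _).trans (mul_le_mul_of_nonneg_left (hea N a) hD0)
    have h4 : ‖a - d.e N * a‖ ≤ 2 * ‖a‖ := by
      have := norm_sub_le a (d.e N * a)
      have := hea N a
      linarith
    have h5 : ‖D‖ * ‖R‖ * ‖a - d.e N * a‖ ≤ ‖D‖ * ‖R‖ * (2 * ‖a‖) :=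
      mul_le_mul_of_nonneg_left h4 (by positivity)
    have h6 : ‖D‖ * ‖L‖ * ‖a - d.e N * a‖ ≤ ‖D‖ * ‖L‖ * (2 * ‖a‖) :=
      mul_le_mul_of_nonneg_left h4 (by positivity)
    refine (norm_add₃_le).trans ?_
    calc _ ≤ ‖D‖ * ‖a‖ + ‖D‖ * ‖R‖ * (2 * ‖a‖) + ‖D‖ * ‖L‖ * (2 * ‖a‖) := by linarith
      _ = _ := by ring
  · rw [key]
    obtain ⟨h1, h2⟩ := small N a
    have h3 : D a - (D (d.e N * a) + (D (a - d.e N * a)).comp (R (d.e N)) +
        (D (a - d.e N * a)).comp (L (d.e N))) =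
        D (a - d.e N * a) - (D (a - d.e N * a)).comp (R (d.e N)) -
        (D (a - d.e N * a)).comp (L (d.e N)) := by
      rw [map_sub]
      abel
    rw [h3]
    have h4 : ‖D (a - d.e N * a)‖ ≤ ‖D‖ * ‖a - d.e N * a‖ := D.le_opNorm _
    have h5 := norm_sub_le (D (a - d.e N * a) - (D (a - d.e N * a)).comp (R (d.e N)))
      ((D (a - d.e N * a)).comp (L (d.e N)))
    have h6 := norm_sub_le (D (a - d.e N * a)) ((D (a - d.e N * a)).comp (R (d.e N)))
    have h7 := hN a ha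
    rw [lt_div_iff₀ (by positivity)] at h7
    have h8 : ‖D‖ * ‖a - d.e N * a‖ + ‖D‖ * ‖R‖ * ‖a - d.e N * a‖ + ‖D‖ * ‖L‖ * ‖a - d.e N * a‖ =
        ‖a - d.e N * a‖ * (‖D‖ * (1 + ‖R‖ + ‖L‖)) := by ring
    nlinarith [norm_nonneg (a - d.e N * a)]

end

end Pool.Agent.X179.BA
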